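import Pool.Agent.H83.HM.Bump2

/-!
# The Coulomb Hartree equation: module BUMP, part 3 (the rescaled outer bump)
-/

namespace Pool.Agent.H83.HM

open MeasureTheory Set Filter Topology Real
open Pool.Agent.H99.HM

theorem comp_Ioi (g : ℝ → ℝ) (t κ r0 : ℝ) (hκ : 0 < κ) :
    ∫ τ in Ioi t, g (τ / κ + r0) = κ * ∫ y in Ioi (t / κ + r0), g y := by
  rw [← integral_indicator measurableSet_Ioi, ← integral_indicator measurableSet_Ioi]
  set G := (Ioi (t / κ + r0)).indicator g with hG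
  have e : (Ioi t).indicator (fun τ => g (τ / κ + r0)) = fun τ => (fun y => G (y + r0)) (τ / κ) := by
    funext τ
    simp only [hG, indicator, mem_Ioi]
    have : t < τ ↔ t / κ + r0 < τ / κ + r0 := by
      rw [add_lt_add_iff_right, div_lt_div_iff_of_pos_right hκ]
    by_cases h : t < τ
    · rw [if_pos h, if_pos (this.1 h)]
    · rw [if_neg h, if_neg (fun h' => h (this.2 h'))]
  rw [e, Measure.integral_comp_div, integral_add_right_eq_self G r0, smul_eq_mul, abs_of_pos hκ]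

theorem comp_Ioi_int (g : ℝ → ℝ) (t κ r0 : ℝ) (hκ : 0 < κ)
    (hg : IntegrableOn g (Ioi (t / κ + r0))) :
    IntegrableOn (fun τ => g (τ / κ + r0)) (Ioi t) := by
  rw [← integrable_indicator_iff measurableSet_Ioi] at hg ⊢
  set G := (Ioi (t / κ + r0)).indicator g with hG
  have e : (Ioi t).indicator (fun τ => g (τ / κ + r0)) = fun τ => (fun y => G (y + r0)) (τ / κ) := by
    funext τ
    simp only [hG, indicator, mem_Ioi]
    have : t < τ ↔ t / κ + r0 < τ / κ + r0 := by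
      rw [add_lt_add_iff_right, div_lt_div_iff_of_pos_right hκ]
    by_cases h : t < τ
    · rw [if_pos h, if_pos (this.1 h)]
    · rw [if_neg h, if_neg (fun h' => h (this.2 h'))]
  rw [e]
  exact (hg.comp_add_right r0).comp_div hκ.ne'

/-- the rescaled bump -/
noncomputable def sf (ε κ r0 : ℝ) (σ : ℝ → ℝ) (t : ℝ) : ℝ :=
  if t ≤ 0 then 0 else ε * σ (t / κ + r0) / κ

/-- its derivative -/
noncomputable def sf1 (ε κ r0 L : ℝ) (σ1 : ℝ → ℝ) (t : ℝ) : ℝ :=
  if t ≤ 0 then ε * L / κ ^ 2 else ε * σ1 (t / κ + r0) / κ ^ 2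

section construct

variable {lam : ℝ} {σ σ1 : ℝ → ℝ} {ε κ r0 L : ℝ}

theorem sf_pos (t : ℝ) (ht : 0 < t) : sf ε κ r0 σ t = ε * σ (t / κ + r0) / κ := by
  unfold sf; rw [if_neg (not_le.2 ht)]

theorem sf1_pos (t : ℝ) (ht : 0 < t) : sf1 ε κ r0 L σ1 t = ε * σ1 (t / κ + r0) / κ ^ 2 := by
  unfold sf1; rw [if_neg (not_le.2 ht)]

theorem sf_sq (hε : ε ^ 2 = 1) (t : ℝ) (ht : 0 < t) :
    sf ε κ r0 σ t ^ 2 = 1 / κ ^ 2 * σ (t / κ + r0) ^ 2 := by
  rw [sf_pos t ht, div_pow, mul_pow, hε]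
  ring

theorem Sf_sf (h : RadSol lam σ σ1) (hε : ε ^ 2 = 1) (hκ : 0 < κ) (hr0 : 0 ≤ r0) (t : ℝ)
    (ht : 0 ≤ t) :
    Sf (sf ε κ r0 σ) t = 1 / κ * (Sf σ (t / κ + r0) - Sf σ r0) := by
  unfold Sf
  have e1 : ∫ τ in (0 : ℝ)..t, sf ε κ r0 σ τ ^ 2
      = ∫ τ in (0 : ℝ)..t, 1 / κ ^ 2 * σ (τ / κ + r0) ^ 2 := by
    rw [intervalIntegral.integral_of_le ht, intervalIntegral.integral_of_le ht]
    apply setIntegral_congr_fun measurableSet_Ioc
    intro x hx
    exact sf_sq hε x hx.1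
  rw [e1, intervalIntegral.integral_const_mul,
    intervalIntegral.integral_comp_div_add (fun y => σ y ^ 2) hκ.ne' r0, smul_eq_mul, zero_div,
    zero_add]
  have e2 : (∫ τ in (0 : ℝ)..(t / κ + r0), σ τ ^ 2)
      = (∫ τ in (0 : ℝ)..r0, σ τ ^ 2) + ∫ τ in r0..(t / κ + r0), σ τ ^ 2 :=
    (intervalIntegral.integral_add_adjacent_intervals (ii h le_rfl hr0)
      (ii h hr0 (by positivity))).symm
  rw [e2]
  field_simp
  ring

theorem Mf_sf (h : RadSol lam σ σ1) (hε : ε ^ 2 = 1) (hκ : 0 < κ) (hr0 : 0 ≤ r0) :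
    Mf (sf ε κ r0 σ) = 1 / κ * (Mf σ - Sf σ r0) := by
  unfold Mf Sf
  have e1 : ∫ τ in Ioi (0 : ℝ), sf ε κ r0 σ τ ^ 2
      = ∫ τ in Ioi (0 : ℝ), 1 / κ ^ 2 * σ (τ / κ + r0) ^ 2 := by
    apply setIntegral_congr_fun measurableSet_Ioi
    intro x hx
    exact sf_sq hε x hx
  rw [e1, integral_const_mul, comp_Ioi (fun y => σ y ^ 2) 0 κ r0 hκ, zero_div, zero_add]
  have e2 := intervalIntegral.integral_interval_add_Ioi h.int0
    (h.int0.mono_set (Ioi_subset_Ioi hr0))
  rw [← e2]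
  field_simp
  ring

theorem phi_sf (h : RadSol lam σ σ1) (hε : ε ^ 2 = 1) (hκ : 0 < κ) (hr0 : 0 ≤ r0)
    (hm : κ = 1 - Sf σ r0) (t : ℝ) (ht : 0 ≤ t) :
    phi (κ * r0) (sf ε κ r0 σ) t = 1 / κ ^ 2 * phi 0 σ (t / κ + r0) := by
  unfold phi
  have e1 : ∫ τ in Ioi t, (1 - Sf (sf ε κ r0 σ) τ) / (κ * r0 + τ) ^ 2
      = ∫ τ in Ioi t, 1 / κ ^ 3 * ((fun y => (1 - Sf σ y) / (0 + y) ^ 2) (τ / κ + r0)) := by
    apply setIntegral_congr_fun measurableSet_Ioi
    intro τ hτ
    have hτ0 : 0 < τ := lt_of_le_of_lt ht hτ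
    simp only
    rw [Sf_sf h hε hκ hr0 τ hτ0.le]
    have e2 : κ * r0 + τ = κ * (0 + (τ / κ + r0)) := by field_simp; ring
    have e3 : 1 - 1 / κ * (Sf σ (τ / κ + r0) - Sf σ r0) = 1 / κ * (1 - Sf σ (τ / κ + r0)) := by
      have : Sf σ r0 = 1 - κ := by linarith
      rw [this]; field_simp; ring
    rw [e2, e3, mul_pow]
    have hpos : 0 < 0 + (τ / κ + r0) := by positivity
    field_simp
  rw [e1, integral_const_mul, comp_Ioi (fun y => (1 - Sf σ y) / (0 + y) ^ 2) t κ r0 hκ]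
  field_simp

theorem aff_der (t : ℝ) : HasDerivAt (fun u : ℝ => u / κ + r0) (1 / κ) t := by
  have := ((hasDerivAt_id t).div_const κ).add_const r0
  simpa using this

theorem sf_der (h : RadSol lam σ σ1) (hκ : 0 < κ) (hr0 : 0 ≤ r0) (t : ℝ) (ht : 0 < t) :
    HasDerivAt (sf ε κ r0 σ) (sf1 ε κ r0 L σ1 t) t := by
  rw [sf1_pos t ht]
  have hp : 0 < t / κ + r0 := by positivity
  have h1 := ((h.der _ hp).comp t (aff_der (κ := κ) (r0 := r0) t)).const_mul ε |>.div_const κ
  have h2 : HasDerivAt (sf ε κ r0 σ) (ε * (σ1 (t / κ + r0) * (1 / κ)) / κ) t := by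
    apply h1.congr_of_eventuallyEq
    filter_upwards [Ioi_mem_nhds ht] with u hu
    rw [sf_pos u hu]
    rfl
  refine h2.congr_deriv ?_
  field_simp

theorem sf_der1 (h : RadSol lam σ σ1) (hε : ε ^ 2 = 1) (hκ : 0 < κ) (hr0 : 0 ≤ r0)
    (hm : κ = 1 - Sf σ r0) (t : ℝ) (ht : 0 < t) :
    HasDerivAt (sf1 ε κ r0 L σ1)
      ((-lam / κ ^ 2 - phi (κ * r0) (sf ε κ r0 σ) t) * sf ε κ r0 σ t) t := by
  rw [sf_pos t ht, phi_sf h hε hκ hr0 hm t ht.le]
  have hp : 0 < t / κ + r0 := by positivity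
  have h1 := ((h.der1 _ hp).comp t (aff_der (κ := κ) (r0 := r0) t)).const_mul ε
    |>.div_const (κ ^ 2)
  have h2 : HasDerivAt (sf1 ε κ r0 L σ1)
      (ε * (-(phi 0 σ (t / κ + r0) + lam) * σ (t / κ + r0) * (1 / κ)) / κ ^ 2) t := by
    apply h1.congr_of_eventuallyEq
    filter_upwards [Ioi_mem_nhds ht] with u hu
    rw [sf1_pos u hu]
    rfl
  refine h2.congr_deriv ?_
  field_simp
  ring

theorem tendsto_aff (hκ : 0 < κ) :
    Tendsto (fun t : ℝ => t / κ + r0) (𝓝[>] 0) (𝓝[>] r0) := by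
  apply tendsto_nhdsWithin_of_tendsto_nhds_of_eventually_within
  · have h1 : Continuous (fun t : ℝ => t / κ + r0) := by fun_prop
    have h2 := h1.tendsto 0
    simp only [zero_div, zero_add] at h2
    exact h2.mono_left nhdsWithin_le_nhds
  · filter_upwards [self_mem_nhdsWithin] with t ht
    have : 0 < t / κ := div_pos ht hκ
    rw [mem_Ioi]; linarith

theorem sf1_lim (hκ : 0 < κ) (hL : Tendsto σ1 (𝓝[>] r0) (𝓝 L)) :
    Tendsto (sf1 ε κ r0 L σ1) (𝓝[>] 0) (𝓝 (sf1 ε κ r0 L σ1 0)) := by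
  have h1 := ((hL.comp (tendsto_aff hκ)).const_mul ε).div_const (κ ^ 2)
  have e : sf1 ε κ r0 L σ1 0 = ε * L / κ ^ 2 := by unfold sf1; simp
  rw [e]
  refine h1.congr' ?_
  filter_upwards [self_mem_nhdsWithin] with t ht
  rw [sf1_pos t ht]
  rfl

theorem sf_lim (hκ : 0 < κ) (h0 : Tendsto σ (𝓝[>] r0) (𝓝 0)) :
    Tendsto (sf ε κ r0 σ) (𝓝[>] 0) (𝓝 (sf ε κ r0 σ 0)) := by
  have h1 := ((h0.comp (tendsto_aff hκ)).const_mul ε).div_const κ
  have e : sf ε κ r0 σ 0 = ε * 0 / κ := by unfold sf; simp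
  rw [e]
  refine h1.congr' ?_
  filter_upwards [self_mem_nhdsWithin] with t ht
  rw [sf_pos t ht]
  rfl

theorem sf1_cont (h : RadSol lam σ σ1) (hε : ε ^ 2 = 1) (hκ : 0 < κ) (hr0 : 0 ≤ r0)
    (hm : κ = 1 - Sf σ r0) (hL : Tendsto σ1 (𝓝[>] r0) (𝓝 L)) :
    ContinuousOn (sf1 ε κ r0 L σ1) (Ici 0) := by
  intro t ht
  rcases (mem_Ici.1 ht).eq_or_lt with h0 | h0
  · subst h0
    rw [← continuousWithinAt_Ioi_iff_Ici]
    exact sf1_lim hκ hL
  · exact (sf_der1 h hε hκ hr0 hm t h0).continuousAt.continuousWithinAt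

theorem sf_der0 (h : RadSol lam σ σ1) (hκ : 0 < κ) (hr0 : 0 ≤ r0)
    (h0 : Tendsto σ (𝓝[>] r0) (𝓝 0)) (hL : Tendsto σ1 (𝓝[>] r0) (𝓝 L)) :
    HasDerivWithinAt (sf ε κ r0 σ) (sf1 ε κ r0 L σ1 0) (Ici 0) 0 := by
  apply hasDerivWithinAt_Ici_of_tendsto_deriv (s := Ioi 0)
  · intro t ht
    exact (sf_der (L := L) h hκ hr0 t ht).differentiableAt.differentiableWithinAt
  · exact sf_lim hκ h0
  · exact self_mem_nhdsWithin
  · refine (sf1_lim (ε := ε) hκ hL).congr' ?_
    filter_upwards [self_mem_nhdsWithin] with t ht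
    exact (sf_der (L := L) h hκ hr0 t ht).deriv.symm

/-- `σ'` is square integrable at infinity -/
theorem int1_far (h : RadSol lam σ σ1) (hlam : lam ≤ 0) (R : ℝ) (hR : 0 < R)
    (hS : ∀ r, R ≤ r → 1 ≤ Sf σ r) : IntegrableOn (fun r => σ1 r ^ 2) (Ioi R) := by
  have hP := far_sign h hlam R hR hS
  have hq : ∀ r, R ≤ r → 0 ≤ -(phi 0 σ r + lam) := by
    intro r hr
    have := phiNeg (σ := σ) r (hR.trans_le hr) (fun τ hτ => hS τ (hr.trans hτ))
    linarith
  have hmono : MonotoneOn (fun r => σ r * σ1 r) (Ici R) :=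
    monoOn_Ici (fun r hr => Pder h r (hR.trans_le hr))
      (fun r hr => by have := hq r hr; positivity)
  have hmono2 : Monotone (fun r => σ (max r R) * σ1 (max r R)) := by
    intro a b hab
    exact hmono (mem_Ici.2 (le_max_right _ _)) (mem_Ici.2 (le_max_right _ _))
      (max_le_max_right R hab)
  have hlim : ∃ l, Tendsto (fun r => σ r * σ1 r) atTop (𝓝 l) := by
    rcases tendsto_atTop_of_monotone hmono2 with h1 | ⟨l, h1⟩
    · exfalso
      obtain ⟨r, hr⟩ := (h1.eventually (eventually_gt_atTop 0)).exists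
      exact absurd (hP (max r R) (le_max_right _ _)) (not_le.2 hr)
    · refine ⟨l, h1.congr' ?_⟩
      filter_upwards [eventually_ge_atTop R] with r hr
      rw [max_eq_left hr]
  obtain ⟨l, hl⟩ := hlim
  have hint := integrableOn_Ioi_deriv_of_nonneg' (a := R)
    (fun r hr => Pder h r (hR.trans_le hr))
    (fun r hr => by have := hq r (le_of_lt hr); positivity) hl
  refine Integrable.mono' hint ?_ ?_
  · apply ContinuousOn.aestronglyMeasurable _ measurableSet_Ioi
    intro r hr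
    exact ((h.der1 r (hR.trans hr)).continuousAt.pow 2).continuousWithinAt
  · rw [ae_restrict_iff' measurableSet_Ioi]
    filter_upwards with r hr
    have h1 := hq r (le_of_lt hr)
    rw [Real.norm_eq_abs, abs_of_nonneg (sq_nonneg _)]
    have : 0 ≤ -(phi 0 σ r + lam) * σ r ^ 2 := by positivity
    linarith

end construct

theorem bump (hode : T_ode) : T_bump := by
  intro lam σ σ1 h hlam hM
  obtain ⟨R, hR, hS, -, -⟩ := no_zero_far hode h hlam hM
  obtain ⟨r0, hr0, hnz, hz⟩ := last_zero hode h hlam hM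
  have hin := inner_mass h hlam r0 hr0 hnz hz
  obtain ⟨hσ0, L, hL⟩ := end_limits h r0 hr0 hz
  set κ := 1 - Sf σ r0 with hκd
  have hκ : 0 < κ := by linarith
  have hm0 : 0 ≤ Sf σ r0 := Snn h r0 hr0
  -- the sign
  obtain ⟨ε, hε, hpos⟩ : ∃ ε : ℝ, ε ^ 2 = 1 ∧ ∀ r, r0 < r → 0 < ε * σ r := by
    have hcont : ContinuousOn σ (Ioi r0) := (contσ h).mono (Ioi_subset_Ioi hr0)
    have hsame : ∀ r, r0 < r → 0 < σ (r0 + 1) * σ r := by
      intro r hr
      by_contra hneg
      rw [not_lt] at hneg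
      have hsub : uIcc (r0 + 1) r ⊆ Ioi r0 := by
        intro y hy
        rw [mem_uIcc] at hy
        rw [mem_Ioi]
        rcases hy with hy | hy <;> linarith [hy.1]
      have hiv := intermediate_value_uIcc (hcont.mono hsub)
      have h0 : (0 : ℝ) ∈ uIcc (σ (r0 + 1)) (σ r) := by
        rw [mem_uIcc]
        rcases le_total (σ (r0 + 1)) 0 with a1 | a1
        · left
          refine ⟨a1, ?_⟩
          by_contra a2
          rw [not_le] at a2
          have a3 : σ (r0 + 1) < 0 := lt_of_le_of_ne a1 (hnz _ (by linarith))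
          have := mul_pos_of_neg_of_neg a3 a2
          linarith
        · right
          refine ⟨?_, a1⟩
          by_contra a2
          rw [not_le] at a2
          have a3 : 0 < σ (r0 + 1) := lt_of_le_of_ne a1 (hnz _ (by linarith)).symm
          have := mul_pos a3 a2
          linarith
      obtain ⟨y, hy, hy0⟩ := hiv h0
      exact hnz y (hsub hy) hy0
    rcases lt_or_gt_of_ne (hnz (r0 + 1) (by linarith)) with h1 | h1
    · refine ⟨-1, by norm_num, ?_⟩
      intro r hr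
      have h2 := hsame r hr
      have h3 : σ r < 0 := by
        by_contra h4
        rw [not_lt] at h4
        have := mul_nonpos_of_nonpos_of_nonneg h1.le h4
        linarith
      linarith
    · refine ⟨1, by norm_num, ?_⟩
      intro r hr
      have h2 := hsame r hr
      rw [one_mul]
      exact (mul_pos_iff_of_pos_left h1).1 h2
  refine ⟨κ * r0, -lam / κ ^ 2, sf ε κ r0 σ, sf1 ε κ r0 L σ1, ?_, ?_⟩
  · refine
      { x0 := by positivity
        l0 := div_nonneg (by linarith) (by positivity)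
        zero := by unfold sf; simp
        pos := ?_
        cont1 := sf1_cont h hε hκ hr0 hκd hL
        der0 := sf_der0 h hκ hr0 hσ0 hL
        der := fun t ht => sf_der h hκ hr0 t ht
        der1 := fun t ht => sf_der1 h hε hκ hr0 hκd t ht
        int0 := ?_
        int1 := ?_ }
    · intro t ht
      rw [sf_pos t ht]
      apply div_pos _ hκ
      apply hpos
      have : 0 < t / κ := div_pos ht hκ
      linarith
    · have h1 : IntegrableOn (fun τ => 1 / κ ^ 2 * (fun y => σ y ^ 2) (τ / κ + r0)) (Ioi 0) := by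
        apply Integrable.const_mul
        refine comp_Ioi_int (fun y => σ y ^ 2) 0 κ r0 hκ ?_
        apply h.int0.mono_set
        apply Ioi_subset_Ioi
        rw [zero_div, zero_add]
        exact hr0
      refine (integrableOn_congr_fun ?_ measurableSet_Ioi).1 h1
      intro t ht
      exact (sf_sq hε t ht).symm
    · set B := κ * R with hB
      have hB0 : 0 < B := by positivity
      have e : Ioi (0 : ℝ) = Ioc 0 B ∪ Ioi B := (Ioc_union_Ioi_eq_Ioi hB0.le).symm
      rw [e]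
      apply IntegrableOn.union
      · have hc : ContinuousOn (fun t => sf1 ε κ r0 L σ1 t ^ 2) (Icc 0 B) :=
          ((sf1_cont h hε hκ hr0 hκd hL).mono Icc_subset_Ici_self).pow 2
        exact hc.integrableOn_Icc.mono_set Ioc_subset_Icc_self
      · have h1 : IntegrableOn (fun τ => 1 / κ ^ 4 * (fun y => σ1 y ^ 2) (τ / κ + r0)) (Ioi B) := by
          apply Integrable.const_mul
          refine comp_Ioi_int (fun y => σ1 y ^ 2) B κ r0 hκ ?_
          apply (int1_far h hlam R hR hS).mono_set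
          apply Ioi_subset_Ioi
          have : B / κ = R := by rw [hB]; field_simp
          rw [this]
          linarith
        refine (integrableOn_congr_fun ?_ measurableSet_Ioi).1 h1
        intro t ht
        have ht0 : 0 < t := hB0.trans ht
        simp only
        rw [sf1_pos t ht0, div_pow, mul_pow, hε]
        ring
  · rw [Mf_sf h hε hκ hr0, one_div, inv_mul_eq_div, le_div_iff₀ hκ]
    nlinarith

end Pool.Agent.H83.HM
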