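import Pool.Agent.H99.HM.Targets

/-!
# The Coulomb Hartree equation: module BUMP, part 1 (facts on radial solutions)
-/

namespace Pool.Agent.H83.HM

open MeasureTheory Set Filter Topology Real
open Pool.Agent.H99.HM

/-! ### monotonicity from derivatives on rays -/

theorem monoOn_Ici {f f' : ℝ → ℝ} {a : ℝ} (h : ∀ x, a ≤ x → HasDerivAt f (f' x) x)
    (h0 : ∀ x, a ≤ x → 0 ≤ f' x) : MonotoneOn f (Ici a) := by
  apply monotoneOn_of_hasDerivWithinAt_nonneg (f' := f') (convex_Ici a)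
  · intro x hx
    exact (h x hx).continuousAt.continuousWithinAt
  · intro x hx
    rw [interior_Ici] at hx
    exact (h x (le_of_lt hx)).hasDerivWithinAt
  · intro x hx
    rw [interior_Ici] at hx
    exact h0 x (le_of_lt hx)

theorem antiOn_Ici {f f' : ℝ → ℝ} {a : ℝ} (h : ∀ x, a ≤ x → HasDerivAt f (f' x) x)
    (h0 : ∀ x, a ≤ x → f' x ≤ 0) : AntitoneOn f (Ici a) := by
  have h1 : MonotoneOn (fun x => -f x) (Ici a) :=
    monoOn_Ici (f' := fun x => -f' x) (fun x hx => (h x hx).neg)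
      (fun x hx => by have := h0 x hx; linarith)
  intro x hx y hy hxy
  have := h1 hx hy hxy
  simp only at this
  linarith

section facts

variable {lam : ℝ} {σ σ1 : ℝ → ℝ}

theorem contσ (h : RadSol lam σ σ1) : ContinuousOn σ (Ioi 0) :=
  fun r hr => (h.der r hr).continuousAt.continuousWithinAt

theorem contσ2 (h : RadSol lam σ σ1) : ContinuousOn (fun r => σ r ^ 2) (Ioi 0) :=
  (contσ h).pow 2

theorem ii (h : RadSol lam σ σ1) {a b : ℝ} (ha : 0 ≤ a) (hb : 0 ≤ b) :
    IntervalIntegrable (fun r => σ r ^ 2) volume a b := by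
  rw [intervalIntegrable_iff]
  apply h.int0.mono_set
  intro x hx
  rw [mem_uIoc] at hx
  rw [mem_Ioi]
  rcases hx with hx | hx
  · linarith [hx.1]
  · linarith [hx.1]

theorem Sder (h : RadSol lam σ σ1) (t : ℝ) (ht : 0 < t) :
    HasDerivAt (Sf σ) (4 * π * σ t ^ 2) t := by
  have h1 : HasDerivAt (fun t => ∫ τ in (0 : ℝ)..t, σ τ ^ 2) (σ t ^ 2) t := by
    apply intervalIntegral.integral_hasDerivAt_right (ii h le_rfl ht.le)
    · exact (contσ2 h).stronglyMeasurableAtFilter isOpen_Ioi t ht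
    · exact (contσ2 h).continuousAt (Ioi_mem_nhds ht)
  exact h1.const_mul (4 * π)

theorem Smono (h : RadSol lam σ σ1) : MonotoneOn (Sf σ) (Ici 0) := by
  intro a ha b hb hab
  unfold Sf
  apply mul_le_mul_of_nonneg_left _ (by positivity)
  have h1 : (∫ τ in (0 : ℝ)..b, σ τ ^ 2)
      = (∫ τ in (0 : ℝ)..a, σ τ ^ 2) + ∫ τ in a..b, σ τ ^ 2 :=
    (intervalIntegral.integral_add_adjacent_intervals (ii h le_rfl ha) (ii h ha hb)).symm
  have h2 : 0 ≤ ∫ τ in a..b, σ τ ^ 2 :=
    intervalIntegral.integral_nonneg hab (fun u _ => sq_nonneg _)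
  linarith

theorem S0 : Sf σ 0 = 0 := by unfold Sf; simp

theorem Snn (h : RadSol lam σ σ1) (t : ℝ) (ht : 0 ≤ t) : 0 ≤ Sf σ t := by
  have := Smono h (mem_Ici.2 le_rfl) (mem_Ici.2 ht) ht
  rwa [S0] at this

theorem Slim (h : RadSol lam σ σ1) : Tendsto (Sf σ) atTop (𝓝 (Mf σ)) := by
  have := (intervalIntegral_tendsto_integral_Ioi 0 h.int0 tendsto_id).const_mul (4 * π)
  exact this

theorem Sle (h : RadSol lam σ σ1) (t : ℝ) (ht : 0 ≤ t) : Sf σ t ≤ Mf σ := by
  apply ge_of_tendsto (Slim h)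
  filter_upwards [eventually_ge_atTop t] with r hr
  exact Smono h (mem_Ici.2 ht) (mem_Ici.2 (ht.trans hr)) hr

theorem contS (h : RadSol lam σ σ1) : ContinuousOn (Sf σ) (Ioi 0) :=
  fun r hr => (Sder h r hr).continuousAt.continuousWithinAt

theorem inv_sq_int {t : ℝ} (ht : 0 < t) :
    IntegrableOn (fun τ : ℝ => 1 / (0 + τ) ^ 2) (Ioi t) ∧
      ∫ τ in Ioi t, 1 / (0 + τ) ^ 2 = 1 / t := by
  have h1 := integrableOn_Ioi_rpow_of_lt (show (-2 : ℝ) < -1 by norm_num) ht
  have h2 := integral_Ioi_rpow_of_lt (show (-2 : ℝ) < -1 by norm_num) ht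
  have e : ∀ τ ∈ Ioi t, τ ^ (-2 : ℝ) = 1 / (0 + τ) ^ 2 := by
    intro τ hτ
    have hτ0 : 0 < τ := ht.trans hτ
    rw [Real.rpow_neg hτ0.le, Real.rpow_two, zero_add, one_div]
  refine ⟨(integrableOn_congr_fun e measurableSet_Ioi).1 h1, ?_⟩
  rw [← setIntegral_congr_fun measurableSet_Ioi e, h2]
  have : (-2 : ℝ) + 1 = -1 := by norm_num
  rw [this, Real.rpow_neg_one]
  ring

theorem phiInt (h : RadSol lam σ σ1) (t : ℝ) (ht : 0 < t) :
    IntegrableOn (fun τ => (1 - Sf σ τ) / (0 + τ) ^ 2) (Ioi t) := by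
  have hM : 0 ≤ Mf σ := (Snn h t ht.le).trans (Sle h t ht.le)
  have h1 := (inv_sq_int ht).1.const_mul (1 + Mf σ)
  refine Integrable.mono' h1 ?_ ?_
  · apply ContinuousOn.aestronglyMeasurable _ measurableSet_Ioi
    apply ContinuousOn.div
    · exact continuousOn_const.sub ((contS h).mono (Ioi_subset_Ioi ht.le))
    · fun_prop
    · intro x hx
      have : 0 < x := ht.trans hx
      positivity
  · rw [ae_restrict_iff' measurableSet_Ioi]
    filter_upwards with τ hτ
    have hτ0 : 0 < τ := ht.trans hτ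
    have a1 := Snn h τ hτ0.le
    have a2 := Sle h τ hτ0.le
    rw [Real.norm_eq_abs, abs_div, abs_of_pos (show 0 < (0 + τ) ^ 2 by positivity),
      mul_one_div]
    gcongr
    rw [abs_le]
    constructor <;> linarith

theorem phiDer (h : RadSol lam σ σ1) (t : ℝ) (ht : 0 < t) :
    HasDerivAt (phi 0 σ) (-((1 - Sf σ t) / (0 + t) ^ 2)) t := by
  set f : ℝ → ℝ := fun τ => (1 - Sf σ τ) / (0 + τ) ^ 2 with hf
  set c : ℝ := t / 2 with hc
  have hc0 : 0 < c := by positivity
  have hfc : ContinuousOn f (Ioi 0) := by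
    apply ContinuousOn.div
    · exact continuousOn_const.sub (contS h)
    · fun_prop
    · intro x hx
      have : 0 < x := hx
      positivity
  have e : ∀ᶠ u in 𝓝 t, phi 0 σ u = phi 0 σ c - ∫ τ in c..u, f τ := by
    filter_upwards [Ioi_mem_nhds ht] with u hu
    have := intervalIntegral.integral_interval_add_Ioi (phiInt h c hc0) (phiInt h u hu)
    unfold phi
    rw [← this]
    ring
  have h1 : HasDerivAt (fun u => ∫ τ in c..u, f τ) (f t) t := by
    apply intervalIntegral.integral_hasDerivAt_right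
    · apply ContinuousOn.intervalIntegrable
      apply hfc.mono
      intro x hx
      rw [uIcc_of_le (by linarith)] at hx
      exact lt_of_lt_of_le hc0 hx.1
    · exact hfc.stronglyMeasurableAtFilter isOpen_Ioi t ht
    · exact hfc.continuousAt (Ioi_mem_nhds ht)
  have h2 : HasDerivAt (fun u => phi 0 σ c - ∫ τ in c..u, f τ) (-(f t)) t := by
    have := h1.const_sub (phi 0 σ c)
    exact this
  exact h2.congr_of_eventuallyEq e

theorem phiBd (h : RadSol lam σ σ1) (t : ℝ) (ht : 0 < t) : |phi 0 σ t| ≤ (1 + Mf σ) / t := by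
  have hM : 0 ≤ Mf σ := (Snn h t ht.le).trans (Sle h t ht.le)
  unfold phi
  rw [← Real.norm_eq_abs]
  have h1 := (inv_sq_int ht).1.const_mul (1 + Mf σ)
  have h2 := norm_integral_le_of_norm_le (μ := volume.restrict (Ioi t))
    (f := fun τ => (1 - Sf σ τ) / (0 + τ) ^ 2) h1 (by
      rw [ae_restrict_iff' measurableSet_Ioi]
      filter_upwards with τ hτ
      have hτ0 : 0 < τ := ht.trans hτ
      have a1 := Snn h τ hτ0.le
      have a2 := Sle h τ hτ0.le
      rw [Real.norm_eq_abs, abs_div, abs_of_pos (show 0 < (0 + τ) ^ 2 by positivity),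
        mul_one_div]
      gcongr
      rw [abs_le]
      constructor <;> linarith)
  refine h2.trans (le_of_eq ?_)
  rw [integral_const_mul, (inv_sq_int ht).2]
  ring

theorem phiNeg (t : ℝ) (ht : 0 < t) (hS : ∀ τ, t ≤ τ → 1 ≤ Sf σ τ) :
    phi 0 σ t ≤ 0 := by
  unfold phi
  apply integral_nonpos_of_ae
  change ∀ᵐ τ ∂(volume.restrict (Ioi t)), (1 - Sf σ τ) / (0 + τ) ^ 2 ≤ 0
  rw [ae_restrict_iff' measurableSet_Ioi]
  filter_upwards with τ hτ
  have hτ0 : 0 < τ := ht.trans hτ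
  apply div_nonpos_of_nonpos_of_nonneg _ (by positivity)
  have := hS τ (le_of_lt hτ)
  linarith

/-- `σ²` is not bounded below at infinity -/
theorem no_lower (h : RadSol lam σ σ1) (b c : ℝ) (hc : 0 < c) (hb : 0 ≤ b)
    (hle : ∀ r, b ≤ r → c ≤ σ r ^ 2) : False := by
  have h1 : IntegrableOn (fun _ : ℝ => c) (Ioi b) := by
    refine Integrable.mono' (h.int0.mono_set (Ioi_subset_Ioi hb)) aestronglyMeasurable_const ?_
    rw [ae_restrict_iff' measurableSet_Ioi]
    filter_upwards with r hr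
    rw [Real.norm_eq_abs, abs_of_pos hc]
    exact hle r (le_of_lt hr)
  rw [integrableOn_const_iff] at h1
  simp at h1
  exact hc.ne' h1

/-- the derivative of `σ σ'` -/
theorem Pder (h : RadSol lam σ σ1) (r : ℝ) (hr : 0 < r) :
    HasDerivAt (fun r => σ r * σ1 r) (σ1 r ^ 2 + -(phi 0 σ r + lam) * σ r ^ 2) r := by
  have := (h.der r hr).mul (h.der1 r hr)
  exact this.congr_deriv (by ring)

theorem sqder (h : RadSol lam σ σ1) (r : ℝ) (hr : 0 < r) :
    HasDerivAt (fun r => σ r ^ 2) (2 * (σ r * σ1 r)) r := by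
  have := (h.der r hr).pow 2
  exact this.congr_deriv (by push_cast; ring)

/-- if the mass is at least one from `a` on, and `σ σ'` is positive at `a`, contradiction -/
theorem far_sign (h : RadSol lam σ σ1) (hlam : lam ≤ 0) (a : ℝ) (ha : 0 < a)
    (hS : ∀ r, a ≤ r → 1 ≤ Sf σ r) : ∀ r, a ≤ r → σ r * σ1 r ≤ 0 := by
  have hq : ∀ r, a ≤ r → 0 ≤ -(phi 0 σ r + lam) := by
    intro r hr
    have := phiNeg (σ := σ) r (ha.trans_le hr) (fun τ hτ => hS τ (hr.trans hτ))
    linarith
  have hmono : MonotoneOn (fun r => σ r * σ1 r) (Ici a) :=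
    monoOn_Ici (fun r hr => Pder h r (ha.trans_le hr))
      (fun r hr => by have := hq r hr; positivity)
  intro r hr
  by_contra hp
  rw [not_le] at hp
  set p := σ r * σ1 r with hpd
  -- `σ² - 2 p x` is nondecreasing
  have h1 : MonotoneOn (fun x => σ x ^ 2 - 2 * p * x) (Ici r) := by
    apply monoOn_Ici (f' := fun x => 2 * (σ x * σ1 x) - 2 * p)
    · intro x hx
      have e1 := sqder h x (ha.trans_le (hr.trans hx))
      have e2 : HasDerivAt (fun x : ℝ => 2 * p * x) (2 * p) x := by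
        simpa using (hasDerivAt_id x).const_mul (2 * p)
      exact e1.sub e2
    · intro x hx
      have := hmono (mem_Ici.2 hr) (mem_Ici.2 (hr.trans hx)) hx
      simp only at this
      linarith
  apply no_lower h (r + 1) (2 * p) (by positivity) (by linarith)
  intro x hx
  have h2 := h1 (mem_Ici.2 le_rfl) (mem_Ici.2 (by linarith : r ≤ x)) (by linarith)
  simp only at h2
  have h3 : 0 ≤ σ r ^ 2 := sq_nonneg _
  nlinarith

/-- far away there is no zero -/
theorem no_zero_far (hode : T_ode) (h : RadSol lam σ σ1) (hlam : lam ≤ 0) (hM : 1 < Mf σ) :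
    ∃ R, 0 < R ∧ (∀ r, R ≤ r → 1 ≤ Sf σ r) ∧ (∀ r, R ≤ r → σ r * σ1 r ≤ 0) ∧
      ∀ r, R ≤ r → σ r ≠ 0 := by
  have h1 : ∀ᶠ r in atTop, 1 < Sf σ r := (Slim h).eventually (lt_mem_nhds hM)
  obtain ⟨R0, hR0⟩ := (h1.and (eventually_ge_atTop (1 : ℝ))).exists
  have hR : 0 < R0 := by linarith [hR0.2]
  have hS : ∀ r, R0 ≤ r → 1 ≤ Sf σ r := by
    intro r hr
    exact hR0.1.le.trans (Smono h (mem_Ici.2 hR.le) (mem_Ici.2 (hR.le.trans hr)) hr)
  have hP := far_sign h hlam R0 hR hS
  refine ⟨R0, hR, hS, hP, ?_⟩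
  intro r hr hr0
  have hanti : AntitoneOn (fun x => σ x ^ 2) (Ici R0) :=
    antiOn_Ici (fun x hx => sqder h x (hR.trans_le hx)) (fun x hx => by have := hP x hx; linarith)
  have hz : ∀ x, r ≤ x → σ x = 0 := by
    intro x hx
    have := hanti (mem_Ici.2 hr) (mem_Ici.2 (hr.trans hx)) hx
    simp only [hr0] at this
    have h2 : σ x ^ 2 = 0 := le_antisymm (by simpa using this) (sq_nonneg _)
    exact pow_eq_zero_iff (two_ne_zero) |>.1 h2
  have hr1 : 0 < r + 1 := by linarith
  have hz1 : σ1 (r + 1) = 0 := by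
    have e1 := h.der (r + 1) hr1
    have e2 : HasDerivAt σ 0 (r + 1) := by
      apply (hasDerivAt_const (r + 1) (0 : ℝ)).congr_of_eventuallyEq
      filter_upwards [Ioi_mem_nhds (show r < r + 1 by linarith)] with x hx
      exact hz x (le_of_lt hx)
    exact e1.unique e2
  have hcont : ContinuousOn (fun r => -(phi 0 σ r + lam)) (Ioi 0) := by
    intro x hx
    exact (((phiDer h x hx).continuousAt.add continuousAt_const).neg).continuousWithinAt
  have hall := hode (fun r => -(phi 0 σ r + lam)) σ σ1 (r + 1) hcont h.der h.der1 hr1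
    (hz _ (by linarith)) hz1
  have hM0 : Mf σ = 0 := by
    unfold Mf
    have : ∫ t in Ioi (0 : ℝ), σ t ^ 2 = ∫ t in Ioi (0 : ℝ), (0 : ℝ) := by
      apply setIntegral_congr_fun measurableSet_Ioi
      intro x hx
      simp only [(hall x hx).1]
      norm_num
    rw [this]
    simp
  linarith

/-- last zero -/
theorem last_zero (hode : T_ode) (h : RadSol lam σ σ1) (hlam : lam ≤ 0) (hM : 1 < Mf σ) :
    ∃ r0, 0 ≤ r0 ∧ (∀ r, r0 < r → σ r ≠ 0) ∧ (0 < r0 → σ r0 = 0) := by
  obtain ⟨R, hR, -, -, hnz⟩ := no_zero_far hode h hlam hM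
  set Z : Set ℝ := {r | 0 < r ∧ σ r = 0} with hZ
  by_cases hne : Z.Nonempty
  · have hbdd : BddAbove Z := by
      refine ⟨R, ?_⟩
      rintro r ⟨hr, hr0⟩
      by_contra hlt
      rw [not_le] at hlt
      exact hnz r hlt.le hr0
    have hpos : 0 < sSup Z := by
      obtain ⟨r, hr⟩ := hne
      exact lt_of_lt_of_le hr.1 (le_csSup hbdd hr)
    refine ⟨sSup Z, hpos.le, ?_, ?_⟩
    · intro r hr hr0
      have : r ∈ Z := ⟨hpos.trans hr, hr0⟩
      exact absurd (le_csSup hbdd this) (not_le.2 hr)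
    · intro _
      obtain ⟨u, -, hu2, hu3⟩ := exists_seq_tendsto_sSup hne hbdd
      have hc := (h.der (sSup Z) hpos).continuousAt
      have h1 : Tendsto (fun n => σ (u n)) atTop (𝓝 (σ (sSup Z))) := hc.tendsto.comp hu2
      have h2 : (fun n => σ (u n)) = fun _ => 0 := by
        funext n
        exact (hu3 n).2
      rw [h2] at h1
      exact (tendsto_nhds_unique h1 tendsto_const_nhds)
  · refine ⟨0, le_rfl, ?_, fun h => absurd h (lt_irrefl _)⟩
    intro r hr hr0
    exact hne ⟨r, hr, hr0⟩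

/-- the mass inside the last zero is less than one -/
theorem inner_mass (h : RadSol lam σ σ1) (hlam : lam ≤ 0) (r0 : ℝ) (hr0 : 0 ≤ r0)
    (hnz : ∀ r, r0 < r → σ r ≠ 0) (hz : 0 < r0 → σ r0 = 0) : Sf σ r0 < 1 := by
  rcases hr0.eq_or_lt with h0 | h0
  · rw [← h0, S0]; norm_num
  · by_contra hge
    rw [not_lt] at hge
    have hS : ∀ r, r0 ≤ r → 1 ≤ Sf σ r := fun r hr =>
      hge.trans (Smono h (mem_Ici.2 hr0) (mem_Ici.2 (hr0.trans hr)) hr)
    have hq : ∀ r, r0 ≤ r → 0 ≤ -(phi 0 σ r + lam) := by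
      intro r hr
      have := phiNeg (σ := σ) r (h0.trans_le hr) (fun τ hτ => hS τ (hr.trans hτ))
      linarith
    have hmono : MonotoneOn (fun r => σ r * σ1 r) (Ici r0) :=
      monoOn_Ici (fun r hr => Pder h r (h0.trans_le hr))
        (fun r hr => by have := hq r hr; positivity)
    have hP : ∀ r, r0 ≤ r → 0 ≤ σ r * σ1 r := by
      intro r hr
      have := hmono (mem_Ici.2 le_rfl) (mem_Ici.2 hr) hr
      simp only [hz h0, zero_mul] at this
      exact this
    have hsq : MonotoneOn (fun r => σ r ^ 2) (Ici r0) :=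
      monoOn_Ici (fun r hr => sqder h r (h0.trans_le hr))
        (fun r hr => by have := hP r hr; linarith)
    have hc : 0 < σ (r0 + 1) ^ 2 := by
      have := hnz (r0 + 1) (by linarith)
      positivity
    refine no_lower h (r0 + 1) _ hc (by linarith) ?_
    intro r hr
    exact hsq (mem_Ici.2 (by linarith)) (mem_Ici.2 (by linarith)) hr

end facts

end Pool.Agent.H83.HM
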