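import Pool.Agent.H83.HM.Bump

/-!
# The Coulomb Hartree equation: module BUMP, part 2 (behaviour at the left end point)
-/

namespace Pool.Agent.H83.HM

open MeasureTheory Set Filter Topology Real
open Pool.Agent.H99.HM

theorem monoOn_Ioc {f f' : ℝ → ℝ} {δ : ℝ} (h : ∀ x, 0 < x → x ≤ δ → HasDerivAt f (f' x) x)
    (h0 : ∀ x, 0 < x → x ≤ δ → 0 ≤ f' x) : MonotoneOn f (Ioc 0 δ) := by
  apply monotoneOn_of_hasDerivWithinAt_nonneg (f' := f') (convex_Ioc 0 δ)
  · intro x hx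
    exact (h x hx.1 hx.2).continuousAt.continuousWithinAt
  · intro x hx
    rw [interior_Ioc] at hx
    exact (h x hx.1 hx.2.le).hasDerivWithinAt
  · intro x hx
    rw [interior_Ioc] at hx
    exact h0 x hx.1 hx.2.le

theorem phi_neg_eq (x : ℝ) (s : ℝ → ℝ) : phi x (fun r => -s r) = phi x s := by
  funext t
  unfold phi Sf
  simp only [neg_sq]

theorem radSol_neg {lam : ℝ} {σ σ1 : ℝ → ℝ} (h : RadSol lam σ σ1) :
    RadSol lam (fun r => -σ r) (fun r => -σ1 r) where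
  zero := by simpa using h.zero.neg
  der := fun r hr => (h.der r hr).neg
  der1 := fun r hr => by
    rw [phi_neg_eq]
    exact (h.der1 r hr).neg.congr_deriv (by ring)
  int0 := by simpa only [neg_sq] using h.int0

theorem hasDerivAt_invsqrt {r : ℝ} (hr : 0 < r) :
    HasDerivAt (fun r : ℝ => (√r)⁻¹) (-(1 / (2 * (r * √r)))) r := by
  have h1 := (Real.hasDerivAt_sqrt hr.ne').inv (Real.sqrt_ne_zero'.2 hr)
  refine h1.congr_deriv ?_
  have h2 : √r ^ 2 = r := Real.sq_sqrt hr.le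
  have h3 : 0 < √r := Real.sqrt_pos.2 hr
  rw [h2]
  field_simp

section limit

variable {lam : ℝ} {σ σ1 : ℝ → ℝ}

theorem q_bound (h : RadSol lam σ σ1) (r : ℝ) (hr : 0 < r) (hr1 : r ≤ 1) :
    |-(phi 0 σ r + lam)| ≤ (1 + Mf σ + |lam|) / r := by
  rw [abs_neg]
  have h1 := phiBd h r hr
  have h2 : |lam| ≤ |lam| / r := by
    rw [le_div_iff₀ hr]
    have := abs_nonneg lam
    nlinarith
  calc |phi 0 σ r + lam| ≤ |phi 0 σ r| + |lam| := abs_add_le _ _
    _ ≤ (1 + Mf σ) / r + |lam| / r := add_le_add h1 h2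
    _ = _ := by rw [← add_div]

/-- step 1 -/
theorem step1 (h : RadSol lam σ σ1) (K δ : ℝ) (hK : 1 + Mf σ + |lam| ≤ K) (hδ : 0 < δ)
    (hδ1 : δ ≤ 1) (hb : ∀ r, 0 < r → r ≤ δ → |σ r| ≤ 1) :
    ∀ r, 0 < r → r ≤ δ → σ1 r ≤ (|σ1 δ| + 2 * K) * (√r)⁻¹ := by
  have hM : 0 ≤ Mf σ := (Snn h 1 (by norm_num)).trans (Sle h 1 (by norm_num))
  have hK0 : 0 ≤ K := le_trans (by positivity) hK
  intro r hr hrδ
  have hmono : MonotoneOn (fun r => σ1 r - 2 * K * (√r)⁻¹) (Ioc 0 δ) := by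
    apply monoOn_Ioc (f' := fun r => -(phi 0 σ r + lam) * σ r - 2 * K * -(1 / (2 * (r * √r))))
    · intro x hx _
      exact (h.der1 x hx).sub ((hasDerivAt_invsqrt hx).const_mul (2 * K))
    · intro x hx hxδ
      have hx1 : x ≤ 1 := hxδ.trans hδ1
      have h1 : |-(phi 0 σ x + lam) * σ x| ≤ K / x := by
        rw [abs_mul]
        have a1 := q_bound h x hx hx1
        have a2 := hb x hx hxδ
        have a3 : (1 + Mf σ + |lam|) / x ≤ K / x := by gcongr
        calc |-(phi 0 σ x + lam)| * |σ x| ≤ K / x * 1 :=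
              mul_le_mul (a1.trans a3) a2 (abs_nonneg _) (by positivity)
          _ = K / x := mul_one _
      have h2 : K / x ≤ 2 * K * (1 / (2 * (x * √x))) := by
        have hs : √x ≤ 1 := Real.sqrt_le_one.2 hx1
        have hs0 : 0 < √x := Real.sqrt_pos.2 hx
        have e : 2 * K * (1 / (2 * (x * √x))) = K / (x * √x) := by field_simp
        rw [e]
        apply div_le_div_of_nonneg_left hK0 (by positivity)
        nlinarith
      have h3 := neg_abs_le (-(phi 0 σ x + lam) * σ x)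
      linarith
  have h1 := hmono ⟨hr, hrδ⟩ ⟨hδ, le_rfl⟩ hrδ
  simp only at h1
  have h2 : 0 ≤ 2 * K * (√δ)⁻¹ := by positivity
  have h3 : 1 ≤ (√r)⁻¹ := by
    rw [one_le_inv₀ (Real.sqrt_pos.2 hr)]
    exact Real.sqrt_le_one.2 (hrδ.trans hδ1)
  have h4 := le_abs_self (σ1 δ)
  have h5 := abs_nonneg (σ1 δ)
  nlinarith

theorem step2 (h : RadSol lam σ σ1) (C δ : ℝ)
    (hb : ∀ r, 0 < r → r ≤ δ → σ1 r ≤ C * (√r)⁻¹) :
    ∀ r, 0 < r → r ≤ δ → σ r ≤ 2 * C * √r := by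
  intro r hr hrδ
  have hmono : MonotoneOn (fun r => 2 * C * √r - σ r) (Ioc 0 δ) := by
    apply monoOn_Ioc (f' := fun r => 2 * C * (1 / (2 * √r)) - σ1 r)
    · intro x hx _
      exact ((Real.hasDerivAt_sqrt hx.ne').const_mul (2 * C)).sub (h.der x hx)
    · intro x hx hxδ
      have h1 := hb x hx hxδ
      have hs0 : 0 < √x := Real.sqrt_pos.2 hx
      have e : 2 * C * (1 / (2 * √x)) = C * (√x)⁻¹ := by field_simp
      rw [e]
      linarith
  have hlim : Tendsto (fun r => 2 * C * √r - σ r) (𝓝[>] 0) (𝓝 (2 * C * √0 - 0)) := by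
    apply Tendsto.sub _ h.zero
    exact ((Real.continuous_sqrt.tendsto 0).const_mul (2 * C)).mono_left nhdsWithin_le_nhds
  have h0 : (2 * C * √0 - 0 : ℝ) = 0 := by simp
  rw [h0] at hlim
  have : (0 : ℝ) ≤ 2 * C * √r - σ r := by
    apply le_of_tendsto hlim
    filter_upwards [Ioo_mem_nhdsGT hr] with u hu
    exact hmono ⟨hu.1, hu.2.le.trans hrδ⟩ ⟨hr, hrδ⟩ hu.2.le
  linarith

theorem limit_zero (h : RadSol lam σ σ1) : ∃ L, Tendsto σ1 (𝓝[>] 0) (𝓝 L) := by
  have hM : 0 ≤ Mf σ := (Snn h 1 (by norm_num)).trans (Sle h 1 (by norm_num))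
  -- `δ`
  obtain ⟨δ, hδ, hδ1, hb⟩ : ∃ δ, 0 < δ ∧ δ ≤ 1 ∧ ∀ r, 0 < r → r ≤ δ → |σ r| ≤ 1 := by
    have h1 : ∀ᶠ r in 𝓝[>] (0 : ℝ), |σ r| < 1 := by
      have := h.zero.abs
      rw [abs_zero] at this
      exact this.eventually (gt_mem_nhds one_pos)
    rw [eventually_nhdsWithin_iff, Metric.eventually_nhds_iff] at h1
    obtain ⟨ε, hε, h2⟩ := h1
    refine ⟨min (ε / 2) 1, by positivity, min_le_right _ _, ?_⟩
    intro r hr hr2
    apply le_of_lt
    apply h2 _ hr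
    rw [Real.dist_eq, sub_zero, abs_of_pos hr]
    have := hr2.trans (min_le_left _ _)
    linarith
  set K := 1 + Mf σ + |lam| with hK
  have hK0 : 0 ≤ K := by positivity
  set C := |σ1 δ| + 2 * K with hC
  have hC0 : 0 ≤ C := by positivity
  have hn := radSol_neg h
  have hMn : Mf (fun r => -σ r) = Mf σ := by unfold Mf; simp only [neg_sq]
  have u1 := step1 h K δ le_rfl hδ hδ1 hb
  have u2 := step1 hn K δ (by rw [hMn]) hδ hδ1 (by simpa only [abs_neg] using hb)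
  rw [abs_neg] at u2
  have v1 := step2 h C δ u1
  have v2 := step2 hn C δ u2
  have w : ∀ r, 0 < r → r ≤ δ → |-(phi 0 σ r + lam) * σ r| ≤ 2 * K * C * (√r)⁻¹ := by
    intro r hr hrδ
    have a1 := q_bound h r hr (hrδ.trans hδ1)
    have a2 : |σ r| ≤ 2 * C * √r := abs_le'.2 ⟨v1 r hr hrδ, v2 r hr hrδ⟩
    rw [abs_mul]
    have hs0 : 0 < √r := Real.sqrt_pos.2 hr
    calc |-(phi 0 σ r + lam)| * |σ r| ≤ K / r * (2 * C * √r) :=
          mul_le_mul a1 a2 (abs_nonneg _) (by positivity)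
      _ = 2 * K * C * (√r)⁻¹ := by
          have h2 : √r * √r = r := Real.mul_self_sqrt hr.le
          rw [div_mul_eq_mul_div, div_eq_iff hr.ne']
          nth_rewrite 3 [← h2]
          field_simp
  have m1 : MonotoneOn (fun r => σ1 r + 4 * K * C * √r) (Ioc 0 δ) := by
    apply monoOn_Ioc (f' := fun r => -(phi 0 σ r + lam) * σ r + 4 * K * C * (1 / (2 * √r)))
    · intro x hx _
      exact (h.der1 x hx).add ((Real.hasDerivAt_sqrt hx.ne').const_mul (4 * K * C))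
    · intro x hx hxδ
      have h1 := w x hx hxδ
      have hs0 : 0 < √x := Real.sqrt_pos.2 hx
      have e : 4 * K * C * (1 / (2 * √x)) = 2 * K * C * (√x)⁻¹ := by field_simp; ring
      rw [e]
      have h3 := neg_abs_le (-(phi 0 σ x + lam) * σ x)
      linarith
  have m2 : MonotoneOn (fun r => 4 * K * C * √r - σ1 r) (Ioc 0 δ) := by
    apply monoOn_Ioc (f' := fun r => 4 * K * C * (1 / (2 * √r)) - -(phi 0 σ r + lam) * σ r)
    · intro x hx _
      exact ((Real.hasDerivAt_sqrt hx.ne').const_mul (4 * K * C)).sub (h.der1 x hx)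
    · intro x hx hxδ
      have h1 := w x hx hxδ
      have hs0 : 0 < √x := Real.sqrt_pos.2 hx
      have e : 4 * K * C * (1 / (2 * √x)) = 2 * K * C * (√x)⁻¹ := by field_simp; ring
      rw [e]
      have h3 := le_abs_self (-(phi 0 σ x + lam) * σ x)
      linarith
  have hlim := (m1.mono (Ioo_subset_Ioc_self)).tendsto_nhdsWithin_Ioo_right
    (nonempty_Ioo.2 hδ) (by
      refine ⟨-(4 * K * C * √δ - σ1 δ), ?_⟩
      rintro _ ⟨r, hr, rfl⟩
      have := m2 ⟨hr.1, hr.2.le⟩ ⟨hδ, le_rfl⟩ hr.2.le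
      simp only at this ⊢
      have hs0 : 0 ≤ √r := Real.sqrt_nonneg r
      have : 0 ≤ 4 * K * C * √r := by positivity
      linarith)
  set l := sInf ((fun r => σ1 r + 4 * K * C * √r) '' Ioo 0 δ) with hl
  refine ⟨l - 4 * K * C * √0, ?_⟩
  have h2 : Tendsto (fun r => 4 * K * C * √r) (𝓝[>] 0) (𝓝 (4 * K * C * √0)) :=
    ((Real.continuous_sqrt.tendsto 0).const_mul (4 * K * C)).mono_left nhdsWithin_le_nhds
  have h3 := hlim.sub h2
  refine h3.congr ?_
  intro r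
  ring

theorem end_limits (h : RadSol lam σ σ1) (r0 : ℝ) (hr0 : 0 ≤ r0) (hz : 0 < r0 → σ r0 = 0) :
    Tendsto σ (𝓝[>] r0) (𝓝 0) ∧ ∃ L, Tendsto σ1 (𝓝[>] r0) (𝓝 L) := by
  rcases hr0.eq_or_lt with h0 | h0
  · subst h0
    exact ⟨h.zero, limit_zero h⟩
  · refine ⟨?_, σ1 r0, ?_⟩
    · have := (h.der r0 h0).continuousAt.tendsto
      rw [hz h0] at this
      exact this.mono_left nhdsWithin_le_nhds
    · exact (h.der1 r0 h0).continuousAt.tendsto.mono_left nhdsWithin_le_nhds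

end limit

end Pool.Agent.H83.HM
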